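import Pool.Agent.H31.DL

set_option autoImplicit false
open PowerSeries Finset Filter Pool.Agent.H31.DL Topology

namespace Pool.Agent.Results.MP_f5c34b_co.Extremal

/-- The balanced tree with `k` leaves, `k ≥ 1`. -/
def BT (k : ℕ) : T := if 2 ≤ k then .node (BT (k / 2)) (BT ((k + 1) / 2)) else .leaf

theorem b1 : BT 1 = .leaf := by rw [BT]; rfl
theorem b2 {k : ℕ} (h : 2 ≤ k) : BT k = .node (BT (k / 2)) (BT ((k + 1) / 2)) := by rw [BT, if_pos h]

theorem bs (k : ℕ) (h : 1 ≤ k) : size (BT k) = k ∧ H31.DL.Balanced (BT k) := by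
  induction k using Nat.strong_induction_on with
  | _ k ih =>
    rcases h.eq_or_lt with rfl | h
    · rw [b1]; exact ⟨rfl, trivial⟩
    have a := ih (k / 2) (by omega) (by omega)
    have b := ih ((k + 1) / 2) (by omega) (by omega)
    rw [b2 h]; simp only [size, H31.DL.Balanced, a, b, true_and]; omega

noncomputable def be (w : ℝ) : ℝ := (3 - √(5 - 4 * w)) / 2

/-- One plus the argument of `B` at the root. -/
noncomputable def P (r : ℝ) : T → ℝ
  | .leaf => 1 + r
  | .node l t => be (P r l) * be (P r t)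

def ph (x : ℝ) : ℝ := -x ^ 2 + 3 * x - 1

theorem e1 (w : ℝ) : be w ≤ 3 / 2 := by unfold be; linarith [Real.sqrt_nonneg (5 - 4 * w)]
theorem e2 {w : ℝ} (h : w ≤ 5 / 4) : ph (be w) = w := by
  unfold ph be; linear_combination (-1 / 4) * Real.sq_sqrt (show 0 ≤ 5 - 4 * w by linarith)
theorem e3 : Monotone be := fun a b h => by
  unfold be; linarith [Real.sqrt_le_sqrt (show 5 - 4 * b ≤ 5 - 4 * a by linarith)]
theorem e4 {w : ℝ} (h : 1 ≤ w) : 1 ≤ be w := by simpa [be, show (5 : ℝ) - 4 = 1 by norm_num, show (3 : ℝ) - 1 = 2 by norm_num] using e3 h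
theorem e5 {w : ℝ} (h : be w < 3 / 2) : w < 5 / 4 := by
  by_contra! c
  rw [be, Real.sqrt_eq_zero'.mpr (by linarith)] at h; linarith
theorem e6 {w : ℝ} (h : w ≤ 5 / 4) : w ≤ be w := by have := e2 h; unfold ph at this; nlinarith [sq_nonneg (be w - 1)]
theorem e7 {a b : ℝ} (h : a < b) (hb : b ≤ 5 / 4) : be a < be b :=
  lt_of_le_of_ne (e3 h.le) fun e => h.ne (by rw [← e2 hb, ← e, e2 (h.le.trans hb)])

variable {r : ℝ}

theorem p1 (hr : 0 ≤ r) : ∀ S, 1 ≤ P r S
  | .leaf => by simpa [P]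
  | .node l t => one_le_mul_of_one_le_of_one_le (e4 (p1 hr l)) (e4 (p1 hr t))

theorem sub (hr : 0 ≤ r) {l t : T} (h : P r (.node l t) ≤ 5 / 4) : be (P r l) ≤ 5 / 4 ∧ be (P r t) ≤ 5 / 4 := by
  have := e4 (p1 hr l); have := e4 (p1 hr t)
  rw [P] at h; constructor <;> nlinarith

theorem pc : ∀ S, Continuous fun r => P r S
  | .leaf => by unfold P; fun_prop
  | .node l t => by have := pc l; have := pc t; unfold P be; fun_prop

theorem half (hr : 0 ≤ r) {S : T} {x w : ℝ} (h : Ev (H S) r x) (hw : Ev (W S) r w) : w + 1 ≤ 5 / 4 ∧ x + 1 = be (w + 1) := by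
  obtain ⟨w', a, b, c, d⟩ := dec hr h
  obtain rfl := HasSum.unique a hw
  obtain ⟨y, e, f⟩ := up (y := 1 - x) hr a (by linarith) (by linarith)
  obtain rfl := HasSum.unique f h
  refine ⟨by nlinarith [sq_nonneg (y - 1 / 2)], ?_⟩
  rw [be, show 5 - 4 * (w' + 1) = (1 - 2 * y) ^ 2 by linarith, Real.sqrt_sq (by linarith)]; ring

theorem evP (hr : 0 ≤ r) : ∀ {S : T} {x : ℝ}, Ev (H S) r x → P r S ≤ 5 / 4 ∧ x + 1 = be (P r S)
  | .leaf, x, h => by simpa only [P, add_comm r] using half hr h evX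
  | .node l t, x, h => by
    obtain ⟨y, z, a, b, -⟩ := dec2 hr h
    rw [P, ← (evP hr a).2, ← (evP hr b).2, show (y + 1) * (z + 1) = y * z + y + z + 1 by ring]
    exact half hr h (((a.mul b).add a).add b)

theorem Pev (hr : 0 ≤ r) : ∀ S, P r S ≤ 5 / 4 → ∃ x, Ev (H S) r x
  | .leaf, h => (up (S := .leaf) (y := 1 / 2) hr evX (by norm_num) (by rw [P] at h; linarith)).imp fun _ a => a.2
  | .node l t, h => by
    obtain ⟨y, a⟩ := Pev hr l (e5 (by linarith [(sub hr h).1])).le
    obtain ⟨z, b⟩ := Pev hr t (e5 (by linarith [(sub hr h).2])).le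
    rw [P, ← (evP hr a).2, ← (evP hr b).2] at h
    exact (up (S := .node l t) (y := 1 / 2) hr (((a.mul b).add a).add b) (by norm_num) (by linarith)).imp fun _ a => a.2

theorem sm (S : T) (i j : ℕ) : coeff i (H S) * coeff j (H S) ≤ coeff (i + j) (H S) := by
  conv_rhs => rw [hH, map_add, coeff_mul]
  exact le_add_of_nonneg_of_le (nn S _) (single_le_sum (f := fun p : ℕ × ℕ => coeff p.1 (H S) * coeff p.2 (H S))
    (fun _ _ => mul_nonneg (nH S _) (nH S _)) (a := (i, j)) (by simp))

theorem one : ∀ S, 0 < coeff 1 (H S)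
  | .leaf => by rw [hH, map_add]; exact add_pos_of_pos_of_nonneg (by simp [W]) ((nH _).mul (nH _) 1)
  | .node l t => by
    rw [hH, W, map_add, map_add]
    exact add_pos_of_pos_of_nonneg (add_pos_of_nonneg_of_pos (((nH _).mul (nH _)).add (nH _) 1) (one t))
      ((nH _).mul (nH _) 1)

theorem pos (S : T) : ∀ n, 0 < coeff (n + 1) (H S)
  | 0 => one S
  | n + 1 => (mul_pos (pos S n) (one S)).trans_le (sm S _ _)

theorem P0 : ∀ S, P 0 S = 1
  | .leaf => by simp [P]
  | .node l t => by rw [P, P0 l, P0 t, be]; norm_num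

def Lt (S S' : T) : Prop := H S = H S' ∨ ∀ r, 0 < r → P r S' ≤ 5 / 4 → P r S < P r S'

theorem cmp {S S' : T} (h : Lt S S') : ∀ᶠ n in atTop, coeff n (H S) ≤ coeff n (H S') := by
  rcases h with h | h
  · simp [h]
  have K : IsCompact {r | r ∈ Set.Icc (0 : ℝ) 1 ∧ P r S' ≤ 5 / 4} :=
    isCompact_Icc.inter_right (isClosed_le (pc S') continuous_const)
  obtain ⟨ρ, ⟨⟨r0, -⟩, r1⟩, mx⟩ := K.exists_isGreatest ⟨0, by simp, by rw [P0]; norm_num⟩
  have lt : P ρ S < 5 / 4 := r0.eq_or_lt.elim (fun e => by rw [← e, P0]; norm_num) fun e => (h ρ e r1).trans_le r1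
  obtain ⟨s, s1, s2⟩ := (((pc S).continuousAt.eventually_lt continuousAt_const lt).filter_mono
    (nhdsWithin_le_nhds (s := Set.Ioi ρ))).and self_mem_nhdsWithin |>.exists
  have s0 : 0 < s := r0.trans_lt s2
  obtain ⟨u, u1, u2⟩ := exists_between (show ρ < s from s2)
  obtain ⟨m, hm⟩ : ∃ m, 1 ≤ coeff m (H S') * s ^ m := by
    by_contra! c
    have u0 := r0.trans u1.le
    have : Summable fun n => coeff n (H S') * u ^ n := by
      refine .of_nonneg_of_le (fun n => mul_nonneg (nH _ n) (pow_nonneg u0 n)) (fun n => ?_)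
        (summable_geometric_of_lt_one (div_nonneg u0 s0.le) ((div_lt_one s0).mpr u2))
      rw [div_pow, le_div_iff₀ (pow_pos s0 n)]
      nlinarith [c n, pow_nonneg u0 n]
    obtain ⟨-, -, -, -, a⟩ := dec u0 this.hasSum
    have b := low u0 this.hasSum
    have : (1 : ℝ) ≤ size S' := by exact_mod_cast sp S'
    exact u1.not_ge (mx ⟨⟨u0, by nlinarith⟩, (evP u0 ‹Summable _›.hasSum).1⟩)
  have m0 : m ≠ 0 := fun e => by simp [e, c0] at hm; linarith
  obtain ⟨i, -, hi⟩ := exists_min_image (range m) (fun i => coeff (i + 1) (H S') * s ^ (i + 1)) ⟨0, by simp; omega⟩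
  have al : ∀ n, coeff (i + 1) (H S') * s ^ (i + 1) ≤ coeff (n + 1) (H S') * s ^ (n + 1) := fun n => by
    induction n using Nat.strong_induction_on with
    | _ n ih =>
      by_cases c : n < m
      · exact hi n (mem_range.mpr c)
      obtain ⟨n, rfl⟩ := Nat.exists_eq_add_of_le' (not_lt.mp c)
      have a := mul_le_mul_of_nonneg_right (sm S' (n + 1) m) (pow_pos s0 (n + 1 + m)).le
      have b := mul_le_mul_of_nonneg_left hm (mul_pos (pos S' n) (pow_pos s0 (n + 1))).le
      rw [add_right_comm n m 1]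
      refine (ih n (by omega)).trans (le_trans ?_ a)
      rw [pow_add s (n + 1)]; linarith
  obtain ⟨x, hx⟩ := Pev s0.le S s1.le
  filter_upwards [hx.summable.tendsto_atTop_zero.eventually_le_const (mul_pos (pos S' i) (pow_pos s0 (i + 1))),
    eventually_ge_atTop 1] with n a b
  obtain ⟨n, rfl⟩ := Nat.exists_eq_add_of_le' b
  exact le_of_mul_le_mul_right (a.trans (al n)) (pow_pos s0 _)

theorem cvx {b : ℕ → ℝ} {J : ℕ} (p : ∀ m, 0 < b m) (h : ∀ m, 1 ≤ m → m + 2 ≤ J → b (m + 1) * b (m + 1) < b m * b (m + 2)) :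
    ∀ d i j, 1 ≤ i → i + d + 1 ≤ j → j + d + 1 ≤ J → b (i + d + 1) * b j < b i * b (j + d + 1) := by
  have a : ∀ i j, 1 ≤ i → i + 1 ≤ j → j + 1 ≤ J → b (i + 1) * b j < b i * b (j + 1) := fun i j u v => by
    induction j, v using Nat.le_induction with
    | base => exact h i u
    | succ j v ih =>
      intro w
      have x := mul_lt_mul_of_pos_left (h j (by omega) w) (p i)
      have y := mul_lt_mul_of_pos_left (ih (by omega)) (p (j + 1))
      exact lt_of_mul_lt_mul_left (a := b j) (by linarith) (p j).le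
  intro d
  induction d with
  | zero => exact a
  | succ d ih =>
    intro i j u v w
    have x := ih (i + 1) j (by omega) (by omega) (by omega)
    rw [show i + 1 + d + 1 = i + (d + 1) + 1 by omega] at x
    exact x.trans (a i (j + d + 1) u (by omega) w)

theorem two {a u v w : ℝ} (h1 : ph v = u * a) (h2 : ph w = v * a) (v1 : 1 ≤ v) (vw : v < w) (w1 : w ≤ 3 / 2) :
    v * v < u * w := by
  have p : 0 < ph w := by unfold ph; nlinarith
  have q : ph w * v < ph v * w := by unfold ph; nlinarith [mul_pos (sub_pos.mpr vw) (show 0 < v * w - 1 by nlinarith)]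
  refine lt_of_mul_lt_mul_left (a := ph w) ?_ p.le
  have := mul_lt_mul_of_pos_left q (show 0 < v by linarith)
  rw [h1] at this; rw [h2] at this ⊢; linarith

theorem three {x y z : ℝ} (x1 : 1 ≤ x) (xz : x < z) (z1 : z ≤ 3 / 2) (y0 : 1 ≤ y) (y1 : y ≤ 3 / 2)
    (h : ph y * ph y ≤ ph x * ph z) : y * y < x * z := by
  by_contra! c
  obtain ⟨s, s0, e⟩ : ∃ s, 0 ≤ s ∧ s * s = x * z := ⟨_, Real.sqrt_nonneg _, Real.mul_self_sqrt (by nlinarith)⟩
  have s1 : 1 ≤ s := by nlinarith
  have s2 : s ≤ y := by nlinarith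
  have s3 : 2 * s < x + z := by nlinarith [mul_pos (sub_pos.mpr xz) (sub_pos.mpr xz)]
  have a : ph s * ph s ≤ ph y * ph y := mul_self_le_mul_self (by unfold ph; nlinarith) (by unfold ph; nlinarith)
  have b : ph x * ph z - ph s * ph s = (x + z - 2 * s) * (x + z + 2 * s - 3 * (s * s) - 3) := by
    unfold ph; linear_combination (-(s * s) - x * z + 3 * (x + z) - 7) * e
  nlinarith [mul_pos (sub_pos.mpr s3) (show 0 < -(x + z + 2 * s - 3 * (s * s) - 3) by nlinarith)]

theorem lf (hr : 0 < r) (h : be (1 + r) < 3 / 2) : 1 < be (1 + r) := by linarith [e6 (e5 h).le]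

theorem PH (hr : 0 ≤ r) {S S' : T} (e : H S = H S') (h : P r S' ≤ 5 / 4) : be (P r S) = be (P r S') := by
  obtain ⟨x, a⟩ := Pev hr S' h
  rw [← (evP hr a).2, ← (evP hr (e ▸ a : Ev (H S) r x)).2]

theorem Lt.le {S S' : T} (h : Lt S S') (hr : 0 < r) (a : be (P r S') ≤ 5 / 4) :
    be (P r S) ≤ be (P r S') ∧ (H S ≠ H S' → be (P r S) < be (P r S')) := by
  have b := (e5 (show be (P r S') < 3 / 2 by linarith)).le
  exact h.elim (fun e => ⟨(PH hr.le e b).le, fun n => (n e).elim⟩) fun e => ⟨e3 (e r hr b).le, fun _ => e7 (e r hr b) b⟩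

theorem Lt.node {l t l' t' : T} (a : Lt l l') (b : Lt t t') : Lt (.node l t) (.node l' t') := by
  by_cases e : H l = H l' ∧ H t = H t'
  · exact Or.inl (by simp only [H, e])
  refine Or.inr fun r hr h => ?_
  have x := a.le hr (sub hr.le h).1
  have y := b.le hr (sub hr.le h).2
  have := e4 (p1 hr.le l); have := e4 (p1 hr.le t)
  rcases not_and_or.mp e with e | e
  · exact mul_lt_mul (x.2 e) y.1 (by linarith) (by linarith [x.1])
  · exact mul_lt_mul' x.1 (y.2 e) (by linarith) (by linarith [x.1])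

theorem Lt.trans {a b c : T} (x : Lt a b) (y : Lt b c) : Lt a c := by
  have k : ∀ {r S S'}, 0 < r → H S = H S' → P r S' ≤ 5 / 4 → P r S = P r S' := fun {r S S'} hr e h => by
    obtain ⟨x, a⟩ := Pev hr.le S' h
    rw [← e2 h, ← PH hr.le e h, e2 (evP hr.le (e ▸ a : Ev (H S) r x)).1]
  rcases x with x | x <;> rcases y with y | y
  · exact Or.inl (x.trans y)
  · exact Or.inr fun r hr h => (k hr x ((y r hr h).le.trans h)).trans_lt (y r hr h)
  · exact Or.inr fun r hr h => (x r hr ((k hr y h).trans_le h)).trans_eq (k hr y h)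
  · exact Or.inr fun r hr h => (x r hr ((y r hr h).le.trans h)).trans (y r hr h)

theorem sw (l t : T) : Lt (.node l t) (.node t l) := Or.inl (by simp only [H, mul_comm (H l), add_right_comm])

theorem cat {i j : ℕ} (hi : 1 ≤ i) (h : i ≤ j) : Lt (.node (CT i) (CT j)) (CT (i + j)) := by
  obtain ⟨j, rfl⟩ := Nat.exists_eq_add_of_le' (hi.trans h)
  rcases hi.eq_or_lt with rfl | hi
  · rw [add_comm 1]; exact sw _ _
  obtain ⟨i, rfl⟩ := Nat.exists_eq_add_of_le' hi
  refine Or.inr fun r hr a => ?_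
  rw [show i + (1 + 1) + (j + 1) = j + 1 + i + 2 by omega] at a ⊢
  have g : ∀ m, 1 ≤ be (P r (CT m)) := fun m => e4 (p1 hr.le _)
  have ok : ∀ m ≤ j + 1 + i + 2, P r (CT m) ≤ 5 / 4 := fun m hm => by
    induction hm using Nat.decreasingInduction with
    | self => exact a
    | of_succ m _ ih =>
      rcases m with _ | m
      exacts [ih, (e5 (by linarith [(sub hr.le ih).1])).le]
  have := cvx (b := fun m => be (P r (CT m))) (J := j + 1 + i + 1) (fun m => by linarith [g m]) (fun m u v => by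
    obtain ⟨m, rfl⟩ := Nat.exists_eq_add_of_le' u
    have a1 := lf hr (((sub hr.le a).2).trans_lt (by norm_num))
    refine two (e2 (ok (m + 2) (by omega))) (e2 (ok (m + 3) (by omega))) (g _) ?_ (e1 _)
    exact (lt_mul_of_one_lt_right (by linarith [g (m + 2)]) a1).trans_le (e6 (ok (m + 3) (by omega))))
    i 1 (j + 1) le_rfl (by omega) le_rfl
  rw [add_comm 1 i, mul_comm (be (P r (CT 1)))] at this
  exact this

theorem hCT : ∀ S, Lt S (CT (size S))
  | .leaf => Or.inl rfl
  | .node l t => by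
    rcases le_total (size l) (size t) with h | h
    · exact ((hCT l).node (hCT t)).trans (cat (sp l) h)
    · rw [size, add_comm]; exact (sw _ _).trans (((hCT t).node (hCT l)).trans (cat (sp t) h))

theorem bal {i j : ℕ} (hi : 1 ≤ i) (h : i ≤ j) : Lt (BT (i + j)) (.node (BT i) (BT j)) := by
  rw [b2 (by omega)]
  by_cases c : j ≤ i + 1
  · rw [show (i + j) / 2 = i by omega, show (i + j + 1) / 2 = j by omega]; exact Or.inl rfl
  refine Or.inr fun r hr a => ?_
  obtain ⟨b, hb⟩ : ∃ b : ℕ → ℝ, ∀ m, b m = be (P r (BT m)) := ⟨_, fun _ => rfl⟩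
  have g : ∀ m, 1 ≤ b m := fun m => hb m ▸ e4 (p1 hr.le _)
  have g' : ∀ m, b m ≤ 3 / 2 := fun m => hb m ▸ e1 _
  have q : ∀ m, 2 ≤ m → P r (BT m) = b (m / 2) * b ((m + 1) / 2) := fun m u => by rw [b2 u, P, hb, hb]
  have lw : ∀ S, be (1 + r) ≤ be (P r S) := fun S => by
    induction S with
    | leaf => exact le_rfl
    | node l t x _ =>
      by_cases z : P r (.node l t) ≤ 5 / 4
      · exact x.trans ((le_mul_of_one_le_right (by linarith [e4 (p1 hr.le l)]) (e4 (p1 hr.le t))).trans (e6 z))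
      · exact (e1 _).trans (not_lt.mp fun y => z (e5 y).le)
  have mo : Monotone b := monotone_nat_of_le_succ fun m => by
    induction m using Nat.strong_induction_on with
    | _ m ih =>
      rw [hb, hb]
      by_cases u : 2 ≤ m
      · refine e3 ?_
        rw [q m u, q _ (by omega), show (m + 1 + 1) / 2 = m / 2 + 1 by omega, mul_comm]
        exact mul_le_mul_of_nonneg_left (ih _ (by omega)) (by linarith [g ((m + 1) / 2)])
      · rw [BT, if_neg u]; exact lw _
  have ok : ∀ m ≤ j, P r (BT m) ≤ 5 / 4 := fun m hm => (e5 (by linarith [(sub hr.le a).2, mo hm, hb m, hb j])).le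
  have a1 : 1 < b 1 := by rw [hb, b1]; exact lf hr (by linarith [(sub hr.le a).2, lw (BT j)])
  have f : ∀ m, 2 ≤ m → m ≤ j → ph (b m) = b (m / 2) * b ((m + 1) / 2) := fun m u v => by rw [hb, e2 (ok m v), q m u]
  have st : ∀ m, 1 ≤ m → m + 1 ≤ j → b m < b (m + 1) := fun m => by
    induction m using Nat.strong_induction_on with
    | _ m ih =>
      intro u v
      rcases u.eq_or_lt with rfl | u
      · have := e6 (ok 2 v)
        rw [← hb, q 2 le_rfl] at this
        exact (lt_mul_of_one_lt_right (by linarith) a1).trans_le this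
      rw [hb, hb]
      refine e7 ?_ (ok _ v)
      rw [q m u, q _ (by omega), show (m + 1 + 1) / 2 = m / 2 + 1 by omega, mul_comm]
      exact mul_lt_mul_of_pos_left (ih _ (by omega) (by omega) (by omega)) (by linarith [g ((m + 1) / 2)])
  have cv : ∀ m, 1 ≤ m → m + 2 ≤ j → b (m + 1) * b (m + 1) < b m * b (m + 2) := fun m => by
    induction m using Nat.strong_induction_on with
    | _ m ih =>
      intro u v
      rcases u.eq_or_lt with rfl | u
      · exact two (f 2 le_rfl (by omega)) ((f 3 (by omega) v).trans (mul_comm _ _)) (g _) (st 2 (by omega) v) (g' _)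
      refine three (g _) ((st m u.le (by omega)).trans_le (mo (by omega))) (g' _) (g _) (g' _) ?_
      rw [f m u (by omega), f _ (by omega) (by omega), f _ (by omega) v]
      obtain ⟨k, rfl | rfl⟩ := Nat.even_or_odd' m
      · rw [show (2 * k + 1) / 2 = k by omega, show (2 * k + 1 + 1) / 2 = k + 1 by omega, show 2 * k / 2 = k by omega,
          show (2 * k + 2 + 1) / 2 = k + 1 by omega]
        exact le_of_eq (by ring)
      · rw [show (2 * k + 1) / 2 = k by omega, show (2 * k + 1 + 1) / 2 = k + 1 by omega,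
          show (2 * k + 1 + 1 + 1) / 2 = k + 1 by omega, show (2 * k + 1 + 2 + 1) / 2 = k + 2 by omega]
        have := mul_lt_mul_of_pos_left (ih k (by omega) (by omega) (by omega))
          (mul_self_pos.mpr (show b (k + 1) ≠ 0 by linarith [g (k + 1)]))
        linarith
  have := cvx (fun m => by linarith [g m]) cv ((j - i) / 2 - 1) i ((i + j + 1) / 2) hi (by omega) (by omega)
  rwa [show i + ((j - i) / 2 - 1) + 1 = (i + j) / 2 by omega, show (i + j + 1) / 2 + ((j - i) / 2 - 1) + 1 = j by omega,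
    hb, hb, hb, hb] at this

theorem hBT : ∀ S, Lt (BT (size S)) S
  | .leaf => Or.inl (by rw [size, b1])
  | .node l t => by
    rcases le_total (size l) (size t) with h | h
    · exact (bal (sp l) h).trans ((hBT l).node (hBT t))
    · rw [size, add_comm]; exact ((bal (sp t) h).trans ((hBT t).node (hBT l))).trans (sw _ _)

theorem fin : ∀ k, {S | size S ≤ k}.Finite
  | 0 => Set.finite_empty.subset fun S h => by have := sp S; simp at h; omega
  | k + 1 => (((fin k).image2 T.node (fin k)).insert .leaf).subset fun S h => by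
    rcases S with _ | ⟨l, t⟩
    · simp
    · have := sp l; have := sp t
      simp only [Set.mem_setOf_eq, size] at h
      exact Or.inr ⟨l, by simp; omega, t, by simp; omega, rfl⟩

theorem result (k : ℕ) (hk : 1 ≤ k) : (size (BT k) = k ∧ H31.DL.Balanced (BT k)) ∧ ∃ N, ∀ n, N ≤ n → ∀ S, size S = k →
    coeff n (H (BT k)) ≤ coeff n (H S) ∧ coeff n (H S) ≤ coeff n (H (CT k)) := by
  obtain ⟨N, h⟩ := eventually_atTop.mp ((eventually_all_finite (fin k)).mpr fun S _ => (cmp (hBT S)).and (cmp (hCT S)))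
  exact ⟨bs k hk, N, fun n a S e => e ▸ h n a S e.le⟩

end Pool.Agent.Results.MP_f5c34b_co.Extremal
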