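import Mathlib

set_option autoImplicit false
open PowerSeries Finset Filter

namespace Pool.Agent.Results.MP_f5c34b_co.Growth

/-- Species trees. -/
inductive T
  | leaf : T
  | node : T → T → T

/-- The number of leaves. -/
def size : T → ℕ
  | .leaf => 1
  | .node l t => size l + size t

/-- Balanced trees. -/
def Balanced : T → Prop
  | .leaf => True
  | .node l t => Balanced l ∧ Balanced t ∧ size l ≤ size t + 1 ∧ size t ≤ size l + 1

/-- The caterpillar with `k` leaves, `k ≥ 1`. -/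
def CT : ℕ → T
  | k + 2 => .node (CT (k + 1)) .leaf
  | _ => .leaf

/-- The series of `(1 - sqrt (1 - 4 z)) / 2`, that is the sum of `catalan n * z ^ (n + 1)`. -/
noncomputable def B : ℝ⟦X⟧ := X * PowerSeries.mk fun n => (catalan n : ℝ)

/-- The generating function of histories at the root. -/
noncomputable def H : T → ℝ⟦X⟧
  | .leaf => B
  | .node l t => B.subst (H l * H t + H l + H t)

/-- The exponential growth factor, the inverse of the radius of convergence. -/
noncomputable def alpha (S : T) : ℝ := (sSup {r : ℝ | 0 ≤ r ∧ Summable fun n => coeff n (H S) * r ^ n})⁻¹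

theorem hB : B = X + B * B := by
  have := congrArg (PowerSeries.map (Nat.castRingHom ℝ)) catalanSeries_sq_mul_X_add_one
  rw [map_add, map_mul, map_pow, map_X, map_one, show PowerSeries.map (Nat.castRingHom ℝ) catalanSeries =
    PowerSeries.mk fun n => (catalan n : ℝ) by ext; simp] at this
  rw [B]; linear_combination (-X) * this

noncomputable def W : T → ℝ⟦X⟧
  | .leaf => X
  | .node l t => H l * H t + H l + H t

theorem c0 : ∀ S, constantCoeff (H S) = 0
  | .leaf => by simp [H, B]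
  | .node l t => constantCoeff_subst_eq_zero (by
      show constantCoeff _ = 0
      simp [c0 l, c0 t]) _ (by simp [B])

theorem hH : ∀ S, H S = W S + H S * H S
  | .leaf => hB
  | .node l t => by
    have h : HasSubst (H l * H t + H l + H t) := .of_constantCoeff_zero' (by simp [c0])
    conv_lhs => rw [H, hB, subst_add h, subst_mul h, subst_X h]
    rfl

def NN (P : ℝ⟦X⟧) : Prop := ∀ n, 0 ≤ coeff n P
def Ev (P : ℝ⟦X⟧) (r x : ℝ) : Prop := HasSum (fun n => coeff n P * r ^ n) x

theorem NN.mul {P Q : ℝ⟦X⟧} (a : NN P) (b : NN Q) : NN (P * Q) := fun n => by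
  rw [coeff_mul]; exact sum_nonneg fun _ _ => mul_nonneg (a _) (b _)
theorem NN.add {P Q : ℝ⟦X⟧} (a : NN P) (b : NN Q) : NN (P + Q) := fun n => by
  rw [map_add]; exact add_nonneg (a _) (b _)

theorem nn0 {S : T} (h : NN (W S)) : NN (H S) := fun n => by
  induction n using Nat.strong_induction_on with
  | _ n ih =>
    rw [hH, map_add, coeff_mul]
    refine add_nonneg (h n) (sum_nonneg fun p hp => ?_)
    have := mem_antidiagonal.mp hp
    by_cases a : p.1 = 0
    · simp [a, c0]
    by_cases b : p.2 = 0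
    · simp [b, c0]
    exact mul_nonneg (ih _ (by omega)) (ih _ (by omega))

theorem nn : ∀ S, NN (W S)
  | .leaf => fun n => by rw [W, coeff_X]; split_ifs <;> norm_num
  | .node l t => (((nn0 (nn l)).mul (nn0 (nn t))).add (nn0 (nn l))).add (nn0 (nn t))

theorem nH (S : T) : NN (H S) := nn0 (nn S)

variable {r : ℝ}

theorem cm (P Q : ℝ⟦X⟧) (n : ℕ) : coeff n (P * Q) * r ^ n =
    ∑ p ∈ antidiagonal n, coeff p.1 P * r ^ p.1 * (coeff p.2 Q * r ^ p.2) := by
  rw [coeff_mul, sum_mul]
  exact sum_congr rfl fun p hp => by rw [← mem_antidiagonal.mp hp]; ring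

theorem Ev.mul {P Q : ℝ⟦X⟧} {x y : ℝ} (a : Ev P r x) (b : Ev Q r y) : Ev (P * Q) r (x * y) := by
  rw [Ev, funext (cm P Q), ← a.tsum_eq, ← b.tsum_eq,
    tsum_mul_tsum_eq_tsum_sum_antidiagonal_of_summable_norm a.summable.norm b.summable.norm]
  exact (summable_norm_sum_mul_antidiagonal_of_summable_norm a.summable.norm b.summable.norm).of_norm.hasSum

theorem Ev.add {P Q : ℝ⟦X⟧} {x y : ℝ} (a : Ev P r x) (b : Ev Q r y) : Ev (P + Q) r (x + y) := by
  simpa [Ev, add_mul] using HasSum.add a b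

theorem Ev.nn {P : ℝ⟦X⟧} {x : ℝ} (a : Ev P r x) (h : NN P) (hr : 0 ≤ r) : 0 ≤ x :=
  HasSum.nonneg (fun n => mul_nonneg (h n) (pow_nonneg hr n)) a

theorem evX : Ev X r r := by
  rw [Ev, show (fun n => coeff n (X : ℝ⟦X⟧) * r ^ n) = fun n => if n = 1 then r else 0 from funext fun n => by
    rw [coeff_X]; split_ifs with e <;> simp [e]]
  exact hasSum_ite_eq 1 r

theorem down {P Q : ℝ⟦X⟧} {x : ℝ} (a : Ev (P + Q) r x) (p : NN P) (q : NN Q) (hr : 0 ≤ r) : ∃ y, Ev P r y :=
  Summable.of_nonneg_of_le (fun n => mul_nonneg (p n) (pow_nonneg hr n))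
    (fun n => mul_le_mul_of_nonneg_right (by simpa using q n) (pow_nonneg hr n)) a.summable

theorem up {S : T} {w y : ℝ} (hr : 0 ≤ r) (h : Ev (W S) r w) (y0 : 0 ≤ y) (hy : w ≤ y - y * y) :
    ∃ x ≤ y, Ev (H S) r x := by
  have p : ∀ n, 0 ≤ coeff n (H S) * r ^ n := fun n => mul_nonneg (nH S n) (pow_nonneg hr n)
  have s : ∀ N, ∑ n ∈ range N, coeff n (H S) * r ^ n ≤ y := fun N => by
    induction N with
    | zero => simpa
    | succ N ih =>
      have a := sum_le_hasSum (range (N + 1)) (fun n _ => mul_nonneg (nn S n) (pow_nonneg hr n)) h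
      have b : ∑ n ∈ range (N + 1), coeff n (H S * H S) * r ^ n ≤
          (∑ n ∈ range N, coeff n (H S) * r ^ n) * ∑ n ∈ range N, coeff n (H S) * r ^ n := by
        rw [sum_congr rfl fun n _ => cm _ _ n, sum_mul_sum, ← sum_product', ← sum_biUnion fun i _ j _ e =>
          disjoint_left.mpr fun p a b => e ((mem_antidiagonal.mp a).symm.trans (mem_antidiagonal.mp b)),
          ← sum_filter_ne_zero]
        refine sum_le_sum_of_subset_of_nonneg (fun q hq => ?_) fun _ _ _ => mul_nonneg (p _) (p _)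
        simp only [mem_filter, mem_biUnion, mem_range, HasAntidiagonal.mem_antidiagonal, mem_product] at hq ⊢
        obtain ⟨⟨n, u, v⟩, z⟩ := hq
        have : q.1 ≠ 0 := fun e => z (by simp [e, c0])
        have : q.2 ≠ 0 := fun e => z (by simp [e, c0])
        omega
      have c := mul_self_le_mul_self (sum_nonneg fun n _ => p n) ih
      rw [hH]; simp only [map_add, add_mul, sum_add_distrib]; linarith
  have := summable_of_sum_range_le p s
  exact ⟨_, Real.tsum_le_of_sum_range_le p s, this.hasSum⟩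

theorem dec {S : T} {x : ℝ} (hr : 0 ≤ r) (h : Ev (H S) r x) : ∃ w, Ev (W S) r w ∧ x = w + x * x ∧ 0 ≤ x ∧ x ≤ 1 := by
  obtain ⟨w, hw⟩ := down (hH S ▸ h : Ev (W S + H S * H S) r x) (nn S) ((nH S).mul (nH S)) hr
  have e : x = w + x * x := HasSum.unique h (by have := hw.add (h.mul h); rwa [← hH] at this)
  have := hw.nn (nn S) hr
  exact ⟨w, hw, e, h.nn (nH S) hr, by nlinarith⟩

theorem dec2 {l t : T} {x : ℝ} (hr : 0 ≤ r) (h : Ev (H (.node l t)) r x) :
    ∃ y z, Ev (H l) r y ∧ Ev (H t) r z ∧ x = y * z + y + z + x * x := by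
  obtain ⟨w, hw, e, -⟩ := dec hr h
  obtain ⟨y, hy⟩ := down (show Ev (H l + (H l * H t + H t)) r w by rwa [add_left_comm, ← add_assoc]) (nH l)
    (((nH l).mul (nH t)).add (nH t)) hr
  obtain ⟨z, hz⟩ := down (show Ev (H t + (H l * H t + H l)) r w by rwa [add_comm]) (nH t)
    (((nH l).mul (nH t)).add (nH l)) hr
  exact ⟨y, z, hy, hz, by rwa [← HasSum.unique hw (((hy.mul hz).add hy).add hz)]⟩

theorem low (hr : 0 ≤ r) : ∀ {S : T} {x : ℝ}, Ev (H S) r x → size S * r ≤ x
  | .leaf, x, h => by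
    obtain ⟨w, hw, e, -⟩ := dec hr h
    rw [HasSum.unique hw evX] at e
    simp only [size, Nat.cast_one]; nlinarith
  | .node l t, x, h => by
    obtain ⟨y, z, a, b, e⟩ := dec2 hr h
    have := mul_nonneg (a.nn (nH l) hr) (b.nn (nH t) hr)
    simp only [size, Nat.cast_add]; nlinarith [low hr a, low hr b]

theorem sp : ∀ S, 1 ≤ size S
  | .leaf => le_rfl
  | .node l _ => le_add_right (sp l)

def Bal (M : ℕ) : T → Prop
  | .leaf => True
  | .node l t => Bal M l ∧ Bal M t ∧ (size l + size t) ^ 2 ≤ M * (size l * size t)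

theorem bal1 {M : ℕ} : ∀ S, size S ^ 2 ≤ M → Bal M S
  | .leaf, _ => trivial
  | .node l t, h => ⟨bal1 l ((Nat.pow_le_pow_left (Nat.le_add_right _ _) 2).trans h),
      bal1 t ((Nat.pow_le_pow_left (Nat.le_add_left _ _) 2).trans h),
      h.trans (Nat.le_mul_of_pos_right _ (Nat.mul_pos (sp l) (sp t)))⟩

theorem bal2 : ∀ S, Balanced S → Bal 5 S
  | .leaf, _ => trivial
  | .node l t, ⟨a, b, c, d⟩ => ⟨bal2 l a, bal2 t b, by
      have := sp l; have := sp t
      rcases (by omega : size l = size t ∨ size l = size t + 1 ∨ size t = size l + 1) with e | e | e <;>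
        rw [e] <;> nlinarith⟩

theorem upp {M : ℕ} (hM : 1 ≤ M) (hr : 0 ≤ r) : ∀ S, Bal M S → 2 * (M + 1) * (size S * r) ≤ 1 →
    ∃ x ≤ size S * r * (1 + 2 * (M + 1) * (size S * r)), Ev (H S) r x
  | .leaf, _, h => by
    have m : (1 : ℝ) ≤ M := by exact_mod_cast hM
    simp only [size, Nat.cast_one, one_mul] at h ⊢
    have : (1 + 2 * (M + 1) * r) * (1 + 2 * (M + 1) * r) ≤ 2 * 2 :=
      mul_self_le_mul_self (by positivity) (by linarith)
    exact up hr evX (by positivity) (by nlinarith [mul_le_mul_of_nonneg_left this (mul_self_nonneg r)])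
  | .node l t, ⟨a, b, c⟩, h => by
    have c' : ((size l + size t : ℝ) * r) ^ 2 ≤ M * (size l * r * (size t * r)) := by
      have : ((size l + size t : ℝ)) ^ 2 ≤ M * (size l * size t) := by exact_mod_cast c
      nlinarith [mul_le_mul_of_nonneg_left this (mul_self_nonneg r)]
    simp only [size, Nat.cast_add, add_mul (size l : ℝ)] at h c' ⊢
    have u0 : 0 ≤ size l * r := by positivity
    have v0 : 0 ≤ size t * r := by positivity
    have m : (0 : ℝ) ≤ 2 * (M + 1) := by positivity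
    have h1 := (mul_le_mul_of_nonneg_left (le_add_of_nonneg_right v0) m).trans h
    have h2 := (mul_le_mul_of_nonneg_left (le_add_of_nonneg_left u0) m).trans h
    obtain ⟨y, y1, y2⟩ := upp hM hr l a h1
    obtain ⟨z, z1, z2⟩ := upp hM hr t b h2
    refine up hr (((y2.mul z2).add y2).add z2) (by positivity) ?_
    generalize size l * r = u at *
    generalize size t * r = v at *
    have e1 : y * z ≤ u * 2 * (v * 2) := mul_le_mul (y1.trans (by gcongr; linarith)) (z1.trans (by gcongr; linarith))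
      (z2.nn (nH t) hr) (by positivity)
    have e2 : (u + v) * (1 + 2 * (M + 1) * (u + v)) * ((u + v) * (1 + 2 * (M + 1) * (u + v))) ≤
        (u + v) * 2 * ((u + v) * 2) := mul_self_le_mul_self (by positivity) (by gcongr; linarith)
    nlinarith

theorem cat (hr : 0 < r) (m : ℕ) : ∀ (j : ℕ) (x : ℝ), Ev (H (CT (m + j + 1))) r x →
    size (CT (m + j + 1)) = m + j + 1 → x⁻¹ ≤ ((m + 1) * r)⁻¹ - j / 2
  | 0, x, h, e => by
    have := low hr.le h
    rw [e] at this; push_cast at this ⊢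
    simpa using inv_anti₀ (by positivity) this
  | j + 1, x, h, e => by
    obtain ⟨y, z, a, b, f⟩ := dec2 (l := CT (m + j + 1)) (t := .leaf) hr.le h
    have e' : size (CT (m + j + 1)) = m + j + 1 := Nat.add_right_cancel e
    have i := cat hr m j y a e'
    have l := low hr.le a
    have y0 : 0 < y := lt_of_lt_of_le (by rw [e']; positivity) l
    obtain ⟨-, -, -, -, y1⟩ := dec hr.le a
    have z0 := b.nn (nH _) hr.le
    have x1 : y ≤ x := by nlinarith [mul_nonneg y0.le z0]
    have x2 : y * (1 + y) ≤ x := by nlinarith [mul_nonneg y0.le z0]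
    have := inv_anti₀ (by positivity) x2
    have g : (y * (1 + y))⁻¹ = y⁻¹ - (1 + y)⁻¹ := by field_simp; ring
    have := inv_anti₀ (by positivity) (show 1 + y ≤ 2 by linarith)
    push_cast; linarith

theorem sz : ∀ k, size (CT (k + 1)) = k + 1
  | 0 => rfl
  | k + 1 => congrArg (· + 1) (sz k)

theorem al {S : T} {M : ℕ} (hM : 1 ≤ M) (h : Bal M S) {c : ℝ} (c0 : 0 < c)
    (hc : ∀ r x, 0 < r → Ev (H S) r x → r ≤ c⁻¹) : c ≤ alpha S ∧ alpha S ≤ 2 * (M + 1) * size S := by
  have s : (0 : ℝ) < size S := by exact_mod_cast sp S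
  have u : ∀ r ∈ {r : ℝ | 0 ≤ r ∧ Summable fun n => coeff n (H S) * r ^ n}, r ≤ c⁻¹ := fun r ⟨a, b⟩ =>
    a.eq_or_lt.elim (fun e => e ▸ (inv_pos.mpr c0).le) fun e => hc r _ e b.hasSum
  obtain ⟨x, -, hx⟩ := upp (r := (2 * (M + 1) * size S)⁻¹) hM (by positivity) S h (le_of_eq (by field_simp))
  have l : (2 * (M + 1) * size S : ℝ)⁻¹ ≤ _ := le_csSup ⟨_, u⟩ ⟨by positivity, hx.summable⟩
  exact ⟨le_inv_of_le_inv₀ (lt_of_lt_of_le (by positivity) l) (csSup_le ⟨_, by positivity, hx.summable⟩ u),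
    inv_le_of_inv_le₀ (by positivity) l⟩

theorem result : Tendsto (fun k : ℕ => alpha (CT k) / k) atTop atTop ∧
    ∃ c₁ c₂ : ℝ, 0 < c₁ ∧ c₁ ≤ c₂ ∧ ∀ S, Balanced S → c₁ * size S ≤ alpha S ∧ alpha S ≤ c₂ * size S := by
  refine ⟨tendsto_atTop_mono' _ ?_ (((tendsto_natCast_atTop_atTop.atTop_add (tendsto_const_nhds (x := (-1 : ℝ)))).atTop_div_const
    (show (0 : ℝ) < 8 by norm_num))), 1, 12, one_pos, by norm_num, fun S h => ?_⟩
  · filter_upwards [eventually_ge_atTop 2] with k hk
    obtain ⟨m, j, rfl, a, b, c⟩ : ∃ m j, k = m + j + 1 ∧ 1 ≤ j ∧ j ≤ m + 1 ∧ m ≤ j :=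
      ⟨(k - 1) / 2, k / 2, by omega, by omega, by omega, by omega⟩
    have a' : (1 : ℝ) ≤ j := by exact_mod_cast a
    have b' : (j : ℝ) ≤ m + 1 := by exact_mod_cast b
    have c' : (m : ℝ) ≤ j := by exact_mod_cast c
    have := (al (Nat.one_le_pow 2 _ (sp _)) (bal1 (CT (m + j + 1)) le_rfl) (c := j * (m + 1) / 2) (by positivity)
      fun r x r0 h => by
      have i := cat r0 m j x h (sz _)
      have : 0 ≤ x⁻¹ := inv_nonneg.mpr (h.nn (nH _) r0.le)
      have : j / 2 ≤ ((m + 1) * r)⁻¹ := by linarith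
      rw [le_inv_comm₀ (by positivity) (by positivity)] at this
      rw [inv_div, le_div_iff₀ (by positivity)]
      rw [inv_div, le_div_iff₀ (by positivity)] at this
      linarith).1
    rw [le_div_iff₀ (by positivity)]; push_cast; nlinarith
  · have s : (0 : ℝ) < size S := by exact_mod_cast sp S
    have := al (by norm_num) (bal2 S h) s fun r x r0 e => by
      obtain ⟨-, -, -, -, a⟩ := dec r0.le e
      rw [inv_eq_one_div, le_div_iff₀ s]; linarith [low r0.le e]
    norm_num at this ⊢; exact this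

end Pool.Agent.Results.MP_f5c34b_co.Growth
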